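import Pool.Agent.BEB.Stmts
import Pool.Agent.Helper70_BE01.All

/-! Squad BEB (MP_be01ff_an), row HBR: the half ball. -/

namespace Pool.Agent.BEB.H24

open Set Filter Topology MeasureTheory
open scoped InnerProductSpace ENNReal
open Pool.Agent.BE01

noncomputable section

theorem dom_HB (R : ℝ) (hR : 0 < R) : Dom (HB R) := by
  refine ⟨?_, ?_, ?_⟩
  · have h1 : IsOpen {x : En 3 | ‖x‖ < R} := isOpen_lt continuous_norm continuous_const
    have h2 : IsOpen {x : En 3 | 0 < x 2} :=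
      isOpen_lt continuous_const (EuclideanSpace.proj (𝕜 := ℝ) (2 : Fin 3)).continuous
    exact h1.inter h2
  · refine (Metric.isBounded_ball (x := (0 : En 3)) (r := R)).subset ?_
    intro x hx
    rw [mem_ball_zero_iff]
    exact hx.1
  · refine ⟨EuclideanSpace.single (2 : Fin 3) (R / 2), ?_, ?_⟩
    · rw [EuclideanSpace.norm_single, Real.norm_eq_abs, abs_of_pos (by positivity)]
      linarith
    · rw [EuclideanSpace.single_apply, if_pos rfl]
      positivity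

/-- row HBR -/
theorem hbr (hari : AriStmt) (hspe : SpeStmt) (hphi : PhiStmt) : HbrStmt := by
  intro R a p hR ha hp
  obtain ⟨x0, hx0, h1, h2, h3⟩ := hari
  have hDom := dom_HB R hR
  obtain ⟨φ, hφ, hE⟩ := hphi R x0 hR hx0 h1
  have hsimple : ∀ u, IsEig (HB R) ((x0 / R) ^ 2) u → ∃ c : ℝ, u = c • φ :=
    fun u hu => (hspe R x0 hR hx0).2 h2 u φ hu hE hφ
  have hbd : MemLp φ ∞ (mu (HB R)) :=
    Pool.Agent.Helper70BE01All.eig_bdd 3 (HB R) (Or.inr rfl) hDom _ φ hE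
  have hfin : IsFiniteMeasure (mu (HB R)) := Pool.Agent.Helper82_BE01.mu_finite hDom
  obtain ⟨B, hBdef⟩ : ∃ B : ℝ, B = (eLpNorm φ ∞ (mu (HB R))).toReal := ⟨_, rfl⟩
  have hae : ∀ᵐ x ∂(mu (HB R)), |φ x| ≤ B := by
    have h4 := ae_le_eLpNormEssSup (f := φ) (μ := mu (HB R))
    have hne : eLpNorm φ ∞ (mu (HB R)) ≠ ∞ := hbd.eLpNorm_ne_top
    filter_upwards [h4] with x hx
    rw [← eLpNorm_exponent_top] at hx
    have h5 := (ENNReal.toReal_le_toReal (by simp) hne).2 hx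
    rw [hBdef]
    simpa using h5
  have hpos : 0 < ∫ x, φ x ^ (2 * p + 2) ∂(mu (HB R)) := by
    have hmem : MemLp (fun x => φ x ^ (2 * p + 2)) 1 (mu (HB R)) := by
      refine MemLp.of_bound (hbd.aestronglyMeasurable.pow _) (B ^ (2 * p + 2)) ?_
      filter_upwards [hae] with x hx
      rw [norm_pow, Real.norm_eq_abs]
      exact pow_le_pow_left₀ (abs_nonneg _) hx _
    have hint : Integrable (fun x => φ x ^ (2 * p + 2)) (mu (HB R)) :=
      memLp_one_iff_integrable.1 hmem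
    have hnn : ∀ x, 0 ≤ φ x ^ (2 * p + 2) := fun x => Even.pow_nonneg ⟨p + 1, by ring⟩ _
    refine lt_of_le_of_ne (integral_nonneg hnn) (fun h0 => hφ ?_)
    have h4 := (integral_eq_zero_iff_of_nonneg hnn hint).1 h0.symm
    rw [Lp.eq_zero_iff_ae_eq_zero]
    filter_upwards [h4] with x hx
    simp only [Pi.zero_apply] at hx ⊢
    exact pow_eq_zero_iff (by omega) |>.1 hx
  have hcp : 0 < p * cp p * ∫ x, φ x ^ (2 * p + 2) ∂(mu (HB R)) := by
    have hp0 : (0 : ℝ) < p := by exact_mod_cast hp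
    exact mul_pos (mul_pos hp0 (Pool.Agent.Helper70BE01Scl.cp_pos p)) hpos
  obtain ⟨K, hK⟩ : ∃ K : ℕ, (2 * p + 1) * B ^ (2 * p) * ∫ x, φ x ^ 2 ∂(mu (HB R)) <
      K * (p * cp p * ∫ x, φ x ^ (2 * p + 2) ∂(mu (HB R))) := by
    obtain ⟨K, hK⟩ := exists_nat_gt (((2 * p + 1) * B ^ (2 * p) * ∫ x, φ x ^ 2 ∂(mu (HB R))) /
      (p * cp p * ∫ x, φ x ^ (2 * p + 2) ∂(mu (HB R))))
    exact ⟨K, (div_lt_iff₀ hcp).1 hK⟩
  refine Pool.Agent.Helper70BE01All.fnl2 3 (HB R) p K a ((x0 / R) ^ 2) B φ (Or.inr rfl) hDom hp ha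
    hφ hE hsimple hae hK ?_
  intro n _ hn _ u hu
  have hn0 : (0 : ℝ) < n := by
    have : 0 < n := by omega
    exact_mod_cast this
  refine (hspe R (n * x0) hR (mul_pos hn0 hx0)).1 (fun l => h3 n l (by omega)) u ?_
  have h6 : (n * x0 / R) ^ 2 = (n : ℝ) ^ 2 * (x0 / R) ^ 2 := by ring
  rw [h6]
  exact hu

end

end Pool.Agent.BEB.H24
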